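import Pool.Agent.Helper78.LD.Defs
import Pool.Agent.Lead.IP.Recur

/-!
L-SHAPED CORRIDOR, part [D]: the STATEMENTS (as `Prop`s) which are proved by several seats.
All were checked numerically (exact arithmetic mod p) for arbitrary sequences `b`, `β`.
-/

namespace LD
open IP Finset Real

/-- total mass -/
def StTot : Prop := ∀ (m k : ℕ) (b β : ℕ → ℝ),
  tot (Lv m k b β) = Z m b * Z k β * ∏ j ∈ range (2 * m), ∏ r ∈ range (2 * k + 1), s (b j - β r + π / 6)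

/-- (R1) -/
def StR1 : Prop := ∀ (m k : ℕ) (b β : ℕ → ℝ) (x : ℝ),
  (K (m + 1) (2 * m + 1) (ap3 (2 * m) b x (-x) (-x + π / 3)) * s (-(2 * x))) •
      Lv (m + 1) k (ap3 (2 * m) b (-x) x (x + π / 3)) β =
    (K (m + 1) (2 * m + 1) (ap3 (2 * m) b (-x) x (x + π / 3)) * s (2 * x)) •
      Lv (m + 1) k (ap3 (2 * m) b x (-x) (-x + π / 3)) β -
    (K (m + 1) (2 * m + 1) (ap3 (2 * m) b x (-x) (-x + π / 3)) *
      K (m + 1) (2 * m + 1) (ap3 (2 * m) b (-x) x (x + π / 3)) * Real.sin (2 * x) *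
      ∏ r ∈ range (2 * k + 1), (s (x - β r + π / 6) * s (-x - β r + π / 6))) •
      Lv m k (ap1 (2 * m) b x) β

/-- (N) -/
def StN : Prop := ∀ (m k : ℕ) (b β : ℕ → ℝ) (y : ℝ),
  Lv m (k + 1) b (ap3 (2 * k) β (-y) y (y + π / 3)) =
    (K (k + 1) (2 * k + 1) (ap3 (2 * k) β (-y) y (y + π / 3)) *
      ∏ j ∈ range (2 * m), (s (b j - y + π / 6) * s (b j - y - π / 6))) •
      Lv m k b (ap1 (2 * k) β (-y))

/-- (S), first part -/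
def StS1 : Prop := ∀ (m k : ℕ) (b β : ℕ → ℝ) (x : ℝ),
  Lv (m + 1) k (ap3 (2 * m) b x (-x) (-x + π / 3)) (ap1 (2 * k) β (x + π / 6)) =
    (K (m + 1) (2 * m + 1) (ap3 (2 * m) b x (-x) (-x + π / 3)) * s 0 * s (-(2 * x)) *
      (∏ j ∈ range (2 * m), s (b j - x)) * ∏ r ∈ range (2 * k), s (-x - β r + π / 6)) •
      Lw m k (cons x b) (cons (-(x + π / 6)) β)

/-- (S), second part: duality -/
def StDual : Prop := ∀ (m k : ℕ) (c β : ℕ → ℝ),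
  cr (Lw m k c β) + cr (Lv k m (fun j => -β (2 * k - j)) (fun j => -c (2 * m - j))) = tot (Lw m k c β)

/-- the exchange of two column pairs -/
def StPairC : Prop := ∀ (m k i : ℕ) (t : ℕ → ℝ) (v : ℝ) (β : ℕ → ℝ), i + 1 < m →
  s (t i - t (i + 1)) ≠ 0 → s (-t i - t (i + 1)) ≠ 0 → s (t (i + 1) - t i) ≠ 0 → s (t i + t (i + 1)) ≠ 0 →
  Lv m k (ap1 (2 * m) (pr (sw i t)) v) β = Lv m k (ap1 (2 * m) (pr t) v) β

/-- the exchange of two row pairs -/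
def StPairR : Prop := ∀ (m k i : ℕ) (b : ℕ → ℝ) (u : ℕ → ℝ) (a : ℝ), i + 1 < k →
  s (u i - u (i + 1)) ≠ 0 → s (-u i - u (i + 1)) ≠ 0 → s (u (i + 1) - u i) ≠ 0 → s (u i + u (i + 1)) ≠ 0 →
  Lv m k b (ap1 (2 * k) (pr (sw i u)) a) = Lv m k b (ap1 (2 * k) (pr u) a)

/-- change of sign in a column pair -/
def StSgnC : Prop := ∀ (m k i : ℕ) (t : ℕ → ℝ) (v : ℝ) (β : ℕ → ℝ), i < m →
  s (2 * t i) ≠ 0 → s (-(2 * t i)) ≠ 0 →
  Lv m k (ap1 (2 * m) (pr (ng i t)) v) β = Lv m k (ap1 (2 * m) (pr t) v) β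

/-- change of sign in a row pair -/
def StSgnR : Prop := ∀ (m k i : ℕ) (b : ℕ → ℝ) (u : ℕ → ℝ) (a : ℝ), i < k →
  s (2 * u i) ≠ 0 → s (-(2 * u i)) ≠ 0 →
  Lv m k b (ap1 (2 * k) (pr (ng i u)) a) = Lv m k b (ap1 (2 * k) (pr u) a)

/-- polynomial in `2 cos 2v` -/
def StPolyV : Prop := ∀ (m k : ℕ) (b β : ℕ → ℝ), ∃ P : Polynomial ℝ, P.natDegree ≤ m ∧
  ∀ v, FF m k (ap1 (2 * m) b v) β = P.eval (2 * Real.cos (2 * v))

/-- polynomial in `-2 cos 2a` (for paired columns) -/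
def StPolyA : Prop := ∀ (m k : ℕ) (t : ℕ → ℝ) (v : ℝ) (β : ℕ → ℝ), ∃ P : Polynomial ℝ, P.natDegree ≤ m + k ∧
  ∀ a, FF m k (ap1 (2 * m) (pr t) v) (ap1 (2 * k) β a) = P.eval (-(2 * Real.cos (2 * a)))

end LD
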