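import Pool.Agent.Helper78.LD.Cat
import Pool.Agent.Lead.IP.Recur

/-!
L-SHAPED CORRIDOR, part [D]: rows through rows and columns.

`RA n b β r` : `r` rows cross `n` columns (no closing at the left wall), they start at the strands `2+n, ...`
and end at the strands `2, ..., r+1`; the columns start at `2, ..., n+1` and end at `2+r, ...`.
`Om m k` : the closings at the left wall (strands `2+2i`, `3+2i`, `i < k`) and at the top wall (strands `2k+3+2j`,
`2k+4+2j`, `j < m`).
`Bv m k b β` : the vector before the closings.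
-/

namespace LD
open IP Finset Real

/-! ### `De` and rows -/

theorem De_row_lt (off : ℕ) (b : ℕ → ℝ) (k : ℕ) {i : ℕ} (h : off + k + 1 ≤ i) (v : M) :
    De i (row off b k v) = row off b k (De i v) := by
  induction k generalizing v with
  | zero => rfl
  | succ k ih =>
    rw [row_succ, row_succ, ih (by omega), De_Rt_lt (by omega)]

theorem De_row_gt (off : ℕ) (b : ℕ → ℝ) (k : ℕ) {i : ℕ} (h : i ≤ off) (v : M) :
    De i (row (off + 2) b k v) = row off b k (De i v) := by
  induction k generalizing v with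
  | zero => rfl
  | succ k ih =>
    rw [row_succ, row_succ, ih, show off + 2 + k = off + k + 2 by omega, De_Rt_gt (by omega)]

/-- `De off ∘ row (off+1) b n ∘ row off b n` : see `DR` -/
theorem DR_apply (n : ℕ) (b : ℕ → ℝ) (p q : ℝ) (v : M) :
    DR n b p q v = De 2 (row 3 (fun j => b j - q) n (row 2 (fun j => b j - p) n v)) := rfl

theorem rows_zero (n : ℕ) (b β : ℕ → ℝ) (v : M) : rows n b β 0 v = v := rfl

theorem rows_succ (n : ℕ) (b β : ℕ → ℝ) (k : ℕ) (v : M) :
    rows n b β (k + 1) v = DR n b (β (2 * k)) (β (2 * k + 1)) (rows n b β k v) := rfl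

theorem DR_congr (n : ℕ) {b b' : ℕ → ℝ} (h : ∀ j < n, b j = b' j) (p q : ℝ) : DR n b p q = DR n b' p q := by
  unfold DR
  rw [row_congr 3 n (b := fun j => b j - q) (b' := fun j => b' j - q) (fun j hj => by simp only [h j hj]),
    row_congr 2 n (b := fun j => b j - p) (b' := fun j => b' j - p) (fun j hj => by simp only [h j hj])]

theorem rows_congr (n : ℕ) {b b' β β' : ℕ → ℝ} (k : ℕ) (h : ∀ j < n, b j = b' j) (h' : ∀ j < 2 * k, β j = β' j) :
    rows n b β k = rows n b' β' k := by
  induction k with
  | zero => rfl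
  | succ k ih =>
    show DR n b (β (2 * k)) (β (2 * k + 1)) ∘ₗ rows n b β k = DR n b' (β' (2 * k)) (β' (2 * k + 1)) ∘ₗ rows n b' β' k
    rw [ih (fun j hj => h' j (by omega)), DR_congr n h, h' _ (by omega), h' _ (by omega)]

theorem caps_zero (v : M) : caps 0 v = v := rfl

theorem caps_succ (m : ℕ) (v : M) : caps (m + 1) v = caps m (De 3 v) := rfl

/-- the last pair may be closed first -/
theorem caps_succ' (m : ℕ) (v : M) : caps (m + 1) v = caps m (De (2 * m + 3) v) := by
  induction m generalizing v with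
  | zero => rfl
  | succ m ih =>
    rw [caps_succ, ih, caps_succ m, show 2 * (m + 1) + 3 = (2 * m + 3) + 2 by ring,
      De_De (i := 3) (j := 2 * m + 3) (by omega)]

/-- an R-matrix on a column pair is absorbed by the top wall -/
theorem caps_Rt {m j : ℕ} (h : j < m) (u : ℝ) (v : M) : caps m (Rt (2 * j + 3) u v) = s u • caps m v := by
  induction m generalizing j v with
  | zero => omega
  | succ m ih =>
    rw [caps_succ, caps_succ]
    rcases j with _ | j
    · rw [Rt_apply, map_add, map_smul, map_smul, De_E, ← add_smul, map_smul]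
      congr 1
      linarith [s_zero_sub u]
    · rw [show 2 * (j + 1) + 3 = (2 * j + 3) + 2 by ring, De_Rt_gt (by omega), ih (by omega)]

theorem caps_E {m j : ℕ} (h : j < m) (v : M) : caps m (E (2 * j + 3) v) = caps m v := by
  induction m generalizing j v with
  | zero => omega
  | succ m ih =>
    rw [caps_succ, caps_succ]
    rcases j with _ | j
    · rw [De_E]
    · rw [show 2 * (j + 1) + 3 = (2 * j + 3) + 2 by ring, De_E_gt (by omega), ih (by omega)]

/-! ### columns -/

/-- a row is intertwined by an R-matrix of two columns -/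
theorem row_col (off n i : ℕ) (h : i + 2 ≤ n) (b : ℕ → ℝ) (p : ℝ) (v : M) :
    row off (fun j => sw i b j - p) n (Rt (off + i) (b i - b (i + 1)) v) =
      Rt (off + i + 1) (b i - b (i + 1)) (row off (fun j => b j - p) n v) := by
  obtain ⟨k, rfl⟩ : ∃ k, n = i + 2 + k := ⟨n - (i + 2), by omega⟩
  have h1 := row_sw off i (fun j => b j - p) k v
  have e1 : (fun j => b j - p) i - (fun j => b j - p) (i + 1) = b i - b (i + 1) := by
    simp only
    ring
  have e2 : sw i (fun j => b j - p) = fun j => sw i b j - p := rfl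
  rw [e1, e2] at h1
  exact h1

theorem DR_col (n i : ℕ) (h : i + 2 ≤ n) (b : ℕ → ℝ) (p q : ℝ) (v : M) :
    DR n (sw i b) p q (Rt (2 + i) (b i - b (i + 1)) v) = Rt (2 + i) (b i - b (i + 1)) (DR n b p q v) := by
  rw [DR_apply, DR_apply, row_col 2 n i h, show 2 + i + 1 = 3 + i by ring, row_col 3 n i h,
    show 3 + i + 1 = (2 + i) + 2 by ring, De_Rt_gt (by omega)]

theorem rows_col (n i : ℕ) (h : i + 2 ≤ n) (b β : ℕ → ℝ) (k : ℕ) (v : M) :
    rows n (sw i b) β k (Rt (2 + i) (b i - b (i + 1)) v) = Rt (2 + i) (b i - b (i + 1)) (rows n b β k v) := by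
  induction k generalizing v with
  | zero => rfl
  | succ k ih => rw [rows_succ, rows_succ, ih, DR_col n i h]

/-- an R-matrix on two columns through the corner rectangle: it arrives at the strands `3+i`, `4+i` below the caps -/
theorem Rc_col {m i : ℕ} (k : ℕ) (h : i + 2 ≤ 2 * m) (b β : ℕ → ℝ) (v : M) :
    Rc m k (sw i b) β (Rt (2 + i) (b i - b (i + 1)) v) =
      caps m (Rt (3 + i) (b i - b (i + 1)) (row 2 (fun j => b j - β (2 * k)) (2 * m) (rows (2 * m) b β k v))) := by
  show caps m (row 2 (fun j => sw i b j - β (2 * k)) (2 * m) (rows (2 * m) (sw i b) β k (Rt (2 + i) _ v))) = _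
  rw [rows_col _ i h, row_col 2 _ i h, show 2 + i + 1 = 3 + i by ring]

/-- an R-matrix on a column pair is absorbed -/
theorem Rc_pair {m j : ℕ} (k : ℕ) (h : j < m) (b β : ℕ → ℝ) (v : M) :
    Rc m k (sw (2 * j) b) β (Rt (2 * j + 2) (b (2 * j) - b (2 * j + 1)) v) =
      s (b (2 * j) - b (2 * j + 1)) • Rc m k b β v := by
  have h1 := Rc_col k (by omega : 2 * j + 2 ≤ 2 * m) b β v
  rw [show 2 + 2 * j = 2 * j + 2 by ring, show 3 + 2 * j = 2 * j + 3 by ring] at h1
  rw [h1, caps_Rt h]
  rfl

/-! ### rows -/

/-- two rows are intertwined by an R-matrix -/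
theorem row_row (off n : ℕ) (b : ℕ → ℝ) (p q : ℝ) (v : M) :
    row (off + 1) (fun j => b j - p) n (row off (fun j => b j - q) n (Rt (off + n) (p - q) v)) =
      Rt off (p - q) (row (off + 1) (fun j => b j - q) n (row off (fun j => b j - p) n v)) := by
  induction n generalizing off b v with
  | zero => rfl
  | succ n ih =>
    rw [row_succ_left, row_succ_left off, row_succ_left (off + 1) (fun j => b j - q), row_succ_left off]
    rw [← Rt_row_left (off + 1 + 1) _ n (by omega : off + 2 ≤ off + 1 + 1),
      ← Rt_row_left (off + 1 + 1) _ n (by omega : off + 2 ≤ off + 1 + 1)]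
    have h1 := ih (off + 1) (fun j => b (j + 1)) v
    rw [show off + (n + 1) = off + 1 + n by ring, h1]
    have h2 := yang_baxter off (p - q) (b 0 - p + π / 6)
      (row (off + 1 + 1) (fun j => b (j + 1) - q) n (row (off + 1) (fun j => b (j + 1) - p) n v))
    rw [show p - q + (b 0 - p + π / 6) = b 0 - q + π / 6 by ring] at h2
    exact h2.symm

/-- the two rows of a double row may be exchanged -/
theorem DR_row (n : ℕ) (b : ℕ → ℝ) (p q : ℝ) (v : M) :
    DR n b q p (Rt (n + 2) (p - q) v) = s (p - q) • DR n b p q v := by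
  rw [DR_apply, DR_apply, show n + 2 = 2 + n by ring, row_row 2 n, Rt_apply, map_add, map_smul, map_smul, De_E,
    ← add_smul]
  congr 1
  linarith [s_zero_sub (p - q)]

end LD
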