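import Pool.Agent.Helper78.LD.Defs

/-!
L-SHAPED CORRIDOR, part [D]: the operators through the gluing map `J`.
-/

namespace LD
open IP Finset

/-- the site of the lower leg with the number `x` in the glued state -/
def ix (m x : ℕ) : ℕ := if x = 0 then m else x - 1

theorem gl_iff (m : ℕ) (σ τ : St) (x y : ℕ) : gl m σ τ x y ↔
    (x ≤ m ∧ y ≤ m ∧ σ (ix m x) (ix m y)) ∨ (m < x ∧ m < y ∧ τ (x - (m + 1)) (y - (m + 1))) := Iff.rfl

theorem gl_left {m x y : ℕ} (σ τ : St) (hx : x ≤ m) (hy : y ≤ m) : gl m σ τ x y ↔ σ (ix m x) (ix m y) := by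
  rw [gl_iff]
  constructor
  · rintro (h | h)
    · exact h.2.2
    · omega
  · exact fun h => Or.inl ⟨hx, hy, h⟩

theorem gl_right {m x y : ℕ} (σ τ : St) (hx : m < x) (hy : m < y) :
    gl m σ τ x y ↔ τ (x - (m + 1)) (y - (m + 1)) := by
  rw [gl_iff]
  constructor
  · rintro (h | h)
    · omega
    · exact h.2.2
  · exact fun h => Or.inr ⟨hx, hy, h⟩

theorem gl_mixed {m x y : ℕ} (σ τ : St) (hx : x ≤ m) (hy : m < y) : ¬ gl m σ τ x y := by
  rw [gl_iff]
  omega

theorem gl_mixed' {m x y : ℕ} (σ τ : St) (hx : m < x) (hy : y ≤ m) : ¬ gl m σ τ x y := by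
  rw [gl_iff]
  omega

theorem gl_ext {m : ℕ} {σ τ A : St} (h1 : ∀ x y, x ≤ m → y ≤ m → (σ (ix m x) (ix m y) ↔ A x y))
    (h2 : ∀ x y, m < x → m < y → (τ (x - (m + 1)) (y - (m + 1)) ↔ A x y))
    (h3 : ∀ x y, x ≤ m → m < y → ¬ A x y) : gl m σ τ = A := by
  apply Setoid.ext
  intro x y
  rcases le_or_gt x m with hx | hx <;> rcases le_or_gt y m with hy | hy
  · rw [gl_left σ τ hx hy, h1 x y hx hy]
  · exact iff_of_false (gl_mixed σ τ hx hy) (h3 x y hx hy)
  · exact iff_of_false (gl_mixed' σ τ hx hy) (fun h => h3 y x hy hx (A.symm h))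
  · rw [gl_right σ τ hx hy, h2 x y hx hy]

theorem ix_eq {m k x : ℕ} (hk : k < m) : ix m x = k ↔ x = k + 1 := by
  unfold ix
  split_ifs with h <;> omega

theorem ix_succ (m k : ℕ) : ix m (k + 1) = k := by
  unfold ix
  simp

theorem ix_inj {m x y : ℕ} (hx : x ≤ m) (hy : y ≤ m) (h : ix m x = ix m y) : x = y := by
  unfold ix at h
  split_ifs at h <;> omega

theorem gl_detach_left {m k : ℕ} (hk : k < m) (σ τ : St) : gl m (detach k σ) τ = detach (k + 1) (gl m σ τ) := by
  apply gl_ext
  · intro x y hx hy
    rw [detach_apply, detach_apply, gl_left σ τ hx hy]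
    have e : ix m x = ix m y ↔ x = y := ⟨ix_inj hx hy, fun h => by rw [h]⟩
    rw [e, ne_eq, ne_eq, ix_eq hk, ix_eq hk]
  · intro x y hx hy
    rw [detach_apply, gl_right σ τ hx hy]
    constructor
    · intro h
      exact Or.inr ⟨by omega, by omega, h⟩
    · rintro (h | h)
      · subst h
        exact τ.refl _
      · exact h.2.2
  · intro x y hx hy
    rw [detach_apply]
    rintro (h | h)
    · omega
    · exact gl_mixed σ τ hx hy h.2.2

theorem gl_join_left {m j k : ℕ} (hj : j < m) (hk : k < m) (σ τ : St) :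
    gl m (join j k σ) τ = join (j + 1) (k + 1) (gl m σ τ) := by
  apply gl_ext
  · intro x y hx hy
    rw [join_apply, join_apply, gl_left σ τ hx hy, gl_left σ τ hx (by omega : j + 1 ≤ m),
      gl_left σ τ hx (by omega : k + 1 ≤ m), gl_left σ τ (by omega : j + 1 ≤ m) hy,
      gl_left σ τ (by omega : k + 1 ≤ m) hy, ix_succ, ix_succ]
  · intro x y hx hy
    rw [join_apply, gl_right σ τ hx hy]
    constructor
    · exact Or.inl
    · rintro (h | h | h)
      · exact h
      · exact absurd h.1 (gl_mixed' σ τ hx (by omega))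
      · exact absurd h.1 (gl_mixed' σ τ hx (by omega))
  · intro x y hx hy
    rw [join_apply]
    rintro (h | h | h)
    · exact gl_mixed σ τ hx hy h
    · exact gl_mixed σ τ (by omega) hy h.2
    · exact gl_mixed σ τ (by omega) hy h.2

theorem gl_detach_right (m k : ℕ) (σ τ : St) :
    gl m σ (detach k τ) = detach (m + 1 + k) (gl m σ τ) := by
  apply gl_ext
  · intro x y hx hy
    rw [detach_apply, gl_left σ τ hx hy]
    constructor
    · intro h
      exact Or.inr ⟨by omega, by omega, h⟩
    · rintro (h | h)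
      · subst h
        exact σ.refl _
      · exact h.2.2
  · intro x y hx hy
    rw [detach_apply, detach_apply, gl_right σ τ hx hy]
    have e : x - (m + 1) = y - (m + 1) ↔ x = y := by omega
    have e1 : x - (m + 1) ≠ k ↔ x ≠ m + 1 + k := by omega
    have e2 : y - (m + 1) ≠ k ↔ y ≠ m + 1 + k := by omega
    rw [e, e1, e2]
  · intro x y hx hy
    rw [detach_apply]
    rintro (h | h)
    · omega
    · exact gl_mixed σ τ hx hy h.2.2

theorem gl_join_right (m j k : ℕ) (σ τ : St) :
    gl m σ (join j k τ) = join (m + 1 + j) (m + 1 + k) (gl m σ τ) := by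
  have ej : m + 1 + j - (m + 1) = j := by omega
  have ek : m + 1 + k - (m + 1) = k := by omega
  apply gl_ext
  · intro x y hx hy
    rw [join_apply, gl_left σ τ hx hy]
    constructor
    · exact Or.inl
    · rintro (h | h | h)
      · exact h
      · exact absurd h.1 (gl_mixed σ τ hx (by omega))
      · exact absurd h.1 (gl_mixed σ τ hx (by omega))
  · intro x y hx hy
    rw [join_apply, join_apply, gl_right σ τ hx hy, gl_right σ τ hx (by omega : m < m + 1 + j),
      gl_right σ τ hx (by omega : m < m + 1 + k), gl_right σ τ (by omega : m < m + 1 + j) hy,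
      gl_right σ τ (by omega : m < m + 1 + k) hy, ej, ek]
  · intro x y hx hy
    rw [join_apply]
    rintro (h | h | h)
    · exact gl_mixed σ τ hx hy h
    · exact gl_mixed σ τ hx (by omega) h.1
    · exact gl_mixed σ τ hx (by omega) h.1

theorem gl_act_left {m i : ℕ} (h : i + 1 < 2 * m) (σ τ : St) :
    gl m (act i σ) τ = act (i + 2) (gl m σ τ) := by
  obtain ⟨k, rfl | rfl⟩ := parity i
  · rw [act_even, even_add_two, act_even, gl_detach_left (by omega)]
  · rw [act_odd, odd_add_two, act_odd, gl_join_left (by omega) (by omega)]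

theorem gl_act_right (m i : ℕ) (σ τ : St) :
    gl m σ (act i τ) = act (i + (2 * m + 2)) (gl m σ τ) := by
  obtain ⟨k, rfl | rfl⟩ := parity i
  · rw [act_even, show 2 * k + (2 * m + 2) = 2 * (m + 1 + k) by ring, act_even, gl_detach_right]
  · rw [act_odd, show 2 * k + 1 + (2 * m + 2) = 2 * (m + 1 + k) + 1 by ring, act_odd, gl_join_right]
    rfl

/-- gluing and comap on the left leg -/
theorem gl_comap_left {m m' : ℕ} {f F : ℕ → ℕ} (σ τ : St)
    (h1 : ∀ x, x ≤ m' → F x ≤ m ∧ ix m (F x) = f (ix m' x))
    (h2 : ∀ x, m' < x → F x = x - (m' + 1) + (m + 1)) :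
    gl m' (Setoid.comap f σ) τ = Setoid.comap F (gl m σ τ) := by
  apply gl_ext
  · intro x y hx hy
    show σ (f (ix m' x)) (f (ix m' y)) ↔ gl m σ τ (F x) (F y)
    rw [gl_left σ τ (h1 x hx).1 (h1 y hy).1, (h1 x hx).2, (h1 y hy).2]
  · intro x y hx hy
    show τ (x - (m' + 1)) (y - (m' + 1)) ↔ gl m σ τ (F x) (F y)
    have hx' : m < F x := by rw [h2 x hx]; omega
    have hy' : m < F y := by rw [h2 y hy]; omega
    rw [gl_right σ τ hx' hy', h2 x hx, h2 y hy, Nat.add_sub_cancel, Nat.add_sub_cancel]
  · intro x y hx hy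
    exact gl_mixed σ τ (h1 x hx).1 (by rw [h2 y hy]; omega)

/-- gluing and comap on the right leg -/
theorem gl_comap_right {m : ℕ} {f F : ℕ → ℕ} (σ τ : St)
    (h1 : ∀ x, x ≤ m → F x = x)
    (h2 : ∀ x, F (m + 1 + x) = m + 1 + f x) :
    gl m σ (Setoid.comap f τ) = Setoid.comap F (gl m σ τ) := by
  have h3 : ∀ x, m < x → m < F x ∧ F x - (m + 1) = f (x - (m + 1)) := by
    intro x hx
    obtain ⟨z, rfl⟩ : ∃ z, x = m + 1 + z := ⟨x - (m + 1), by omega⟩
    rw [h2, show m + 1 + z - (m + 1) = z by omega]
    omega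
  apply gl_ext
  · intro x y hx hy
    show σ (ix m x) (ix m y) ↔ gl m σ τ (F x) (F y)
    rw [h1 x hx, h1 y hy, gl_left σ τ hx hy]
  · intro x y hx hy
    show τ (f (x - (m + 1))) (f (y - (m + 1))) ↔ gl m σ τ (F x) (F y)
    rw [gl_right σ τ (h3 x hx).1 (h3 y hy).1, (h3 x hx).2, (h3 y hy).2]
  · intro x y hx hy
    exact gl_mixed σ τ (by rw [h1 x hx]; exact hx) (h3 y hy).1

theorem ix_zero (m : ℕ) : ix m 0 = m := by
  unfold ix
  simp

theorem skip_succ (k x : ℕ) : skip (k + 1) (x + 1) = skip k x + 1 := by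
  unfold skip
  split_ifs <;> omega

theorem unskip_succ {k x : ℕ} (h : x < k ∨ 1 ≤ x) : unskip (k + 1) (x + 1) = unskip k x + 1 := by
  unfold unskip
  split_ifs <;> omega

theorem gl_ins_left {m i : ℕ} (h : i ≤ 2 * m) (σ τ : St) :
    gl (m + 1) (ins i σ) τ = ins (i + 2) (gl m σ τ) := by
  obtain ⟨k, rfl | rfl⟩ := parity i
  · rw [ins_even, even_add_two, ins_even,
      detach_comap_congr σ (g := fun x => if x = k then ix m k else unskip k x) (fun x hx => (if_neg hx).symm),
      gl_detach_left (by omega)]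
    congr 1
    apply gl_comap_left
    · intro x hx
      rcases x with _ | x
      · constructor
        · unfold unskip
          split_ifs <;> omega
        · rw [show unskip (k + 1) 0 = 0 by unfold unskip; simp, ix_zero, ix_zero, if_neg (by omega)]
          unfold unskip
          split_ifs <;> omega
      · constructor
        · unfold unskip
          split_ifs <;> omega
        · rw [ix_succ]
          rcases eq_or_ne x k with hxk | hxk
          · subst hxk
            rw [if_pos rfl]
            congr 1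
            unfold unskip
            split_ifs <;> omega
          · rw [if_neg hxk, unskip_succ (by omega), ix_succ]
    · intro x hx
      unfold unskip
      split_ifs <;> omega
  · rw [ins_odd, IP.odd_add_two, ins_odd]
    apply gl_comap_left
    · intro x hx
      rcases x with _ | x
      · constructor
        · unfold unskip
          split_ifs <;> omega
        · rw [show unskip (k + 1 + 1) 0 = 0 by unfold unskip; simp, ix_zero, ix_zero]
          unfold unskip
          split_ifs <;> omega
      · constructor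
        · unfold unskip
          split_ifs <;> omega
        · rw [ix_succ, unskip_succ (by omega), ix_succ]
    · intro x hx
      unfold unskip
      split_ifs <;> omega

theorem gl_ins_right (m i : ℕ) (σ τ : St) :
    gl m σ (ins i τ) = ins (i + (2 * m + 2)) (gl m σ τ) := by
  obtain ⟨k, rfl | rfl⟩ := parity i
  · rw [ins_even, show 2 * k + (2 * m + 2) = 2 * (m + 1 + k) by ring, ins_even,
      detach_comap_congr (gl m σ τ) (g := fun x => if x = m + 1 + k then m + 1 + unskip k k else unskip (m + 1 + k) x)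
        (fun x hx => (if_neg hx).symm), gl_detach_right]
    congr 1
    apply gl_comap_right
    · intro x hx
      rw [if_neg (by omega)]
      unfold unskip
      split_ifs <;> omega
    · intro x
      rcases eq_or_ne x k with hxk | hxk
      · subst hxk
        rw [if_pos rfl]
      · rw [if_neg (by omega)]
        unfold unskip
        split_ifs <;> omega
  · rw [ins_odd, show 2 * k + 1 + (2 * m + 2) = 2 * (m + 1 + k) + 1 by ring, ins_odd]
    apply gl_comap_right
    · intro x hx
      unfold unskip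
      split_ifs <;> omega
    · intro x
      unfold unskip
      split_ifs <;> omega

theorem gl_del_left {m i : ℕ} (h : i ≤ 2 * m) (σ τ : St) :
    gl m (del i σ) τ = del (i + 2) (gl (m + 1) σ τ) := by
  obtain ⟨k, rfl | rfl⟩ := parity i
  · rw [del_even, even_add_two, del_even]
    apply gl_comap_left
    · intro x hx
      rcases x with _ | x
      · constructor
        · unfold skip
          split_ifs <;> omega
        · rw [show skip (k + 1) 0 = 0 by unfold skip; simp, ix_zero, ix_zero]
          unfold skip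
          split_ifs <;> omega
      · constructor
        · unfold skip
          split_ifs <;> omega
        · rw [ix_succ, skip_succ, ix_succ]
    · intro x hx
      unfold skip
      split_ifs <;> omega
  · rw [del_odd, IP.odd_add_two, del_odd, ← gl_join_left (by omega) (by omega)]
    apply gl_comap_left
    · intro x hx
      rcases x with _ | x
      · constructor
        · unfold skip
          split_ifs <;> omega
        · rw [show skip (k + 1 + 1) 0 = 0 by unfold skip; simp, ix_zero, ix_zero]
          unfold skip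
          split_ifs <;> omega
      · constructor
        · unfold skip
          split_ifs <;> omega
        · rw [ix_succ, skip_succ, ix_succ]
    · intro x hx
      unfold skip
      split_ifs <;> omega

theorem gl_del_right (m i : ℕ) (σ τ : St) :
    gl m σ (del i τ) = del (i + (2 * m + 2)) (gl m σ τ) := by
  obtain ⟨k, rfl | rfl⟩ := parity i
  · rw [del_even, show 2 * k + (2 * m + 2) = 2 * (m + 1 + k) by ring, del_even]
    apply gl_comap_right
    · intro x hx
      unfold skip
      split_ifs <;> omega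
    · intro x
      unfold skip
      split_ifs <;> omega
  · rw [del_odd, show 2 * k + 1 + (2 * m + 2) = 2 * (m + 1 + k) + 1 by ring, del_odd,
      show m + 1 + k + 1 = m + 1 + (k + 1) by ring, ← gl_join_right]
    apply gl_comap_right
    · intro x hx
      unfold skip
      split_ifs <;> omega
    · intro x
      unfold skip
      split_ifs <;> omega

/-! ### the linear maps -/

/-- two bilinear maps agree if they agree on singles -/
theorem bil_ext {N : Type*} [AddCommMonoid N] [Module ℝ N] {A B : M →ₗ[ℝ] M →ₗ[ℝ] N}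
    (h : ∀ σ τ, A (Finsupp.single σ 1) (Finsupp.single τ 1) = B (Finsupp.single σ 1) (Finsupp.single τ 1)) :
    A = B := by
  apply Finsupp.lhom_ext'
  intro σ
  apply LinearMap.ext_ring
  apply Finsupp.lhom_ext'
  intro τ
  apply LinearMap.ext_ring
  exact h σ τ

theorem J_E_left {m i : ℕ} (h : i + 1 < 2 * m) (v w : M) : J m (E i v) w = E (i + 2) (J m v w) := by
  have e : (J m) ∘ₗ (E i) = (LinearMap.llcomp ℝ M M M (E (i + 2))) ∘ₗ (J m) := by
    apply bil_ext
    intro σ τ
    simp [J_single_single, gl_act_left h]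
  exact congrArg (fun f : M →ₗ[ℝ] M →ₗ[ℝ] M => f v w) e

theorem J_E_right (m i : ℕ) (v w : M) : J m v (E i w) = E (i + (2 * m + 2)) (J m v w) := by
  have e : (LinearMap.lcomp ℝ M (E i)) ∘ₗ (J m) = (LinearMap.llcomp ℝ M M M (E (i + (2 * m + 2)))) ∘ₗ (J m) := by
    apply bil_ext
    intro σ τ
    simp [J_single_single, gl_act_right]
  exact congrArg (fun f : M →ₗ[ℝ] M →ₗ[ℝ] M => f v w) e

theorem J_In_left {m i : ℕ} (h : i ≤ 2 * m) (v w : M) : J (m + 1) (In i v) w = In (i + 2) (J m v w) := by
  have e : (J (m + 1)) ∘ₗ (In i) = (LinearMap.llcomp ℝ M M M (In (i + 2))) ∘ₗ (J m) := by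
    apply bil_ext
    intro σ τ
    simp [J_single_single, gl_ins_left h]
  exact congrArg (fun f : M →ₗ[ℝ] M →ₗ[ℝ] M => f v w) e

theorem J_In_right (m i : ℕ) (v w : M) : J m v (In i w) = In (i + (2 * m + 2)) (J m v w) := by
  have e : (LinearMap.lcomp ℝ M (In i)) ∘ₗ (J m) = (LinearMap.llcomp ℝ M M M (In (i + (2 * m + 2)))) ∘ₗ (J m) := by
    apply bil_ext
    intro σ τ
    simp [J_single_single, gl_ins_right]
  exact congrArg (fun f : M →ₗ[ℝ] M →ₗ[ℝ] M => f v w) e

theorem J_De_left {m i : ℕ} (h : i ≤ 2 * m) (v w : M) : J m (De i v) w = De (i + 2) (J (m + 1) v w) := by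
  have e : (J m) ∘ₗ (De i) = (LinearMap.llcomp ℝ M M M (De (i + 2))) ∘ₗ (J (m + 1)) := by
    apply bil_ext
    intro σ τ
    simp [J_single_single, gl_del_left h]
  exact congrArg (fun f : M →ₗ[ℝ] M →ₗ[ℝ] M => f v w) e

theorem J_De_right (m i : ℕ) (v w : M) : J m v (De i w) = De (i + (2 * m + 2)) (J m v w) := by
  have e : (LinearMap.lcomp ℝ M (De i)) ∘ₗ (J m) = (LinearMap.llcomp ℝ M M M (De (i + (2 * m + 2)))) ∘ₗ (J m) := by
    apply bil_ext
    intro σ τ
    simp [J_single_single, gl_del_right]
  exact congrArg (fun f : M →ₗ[ℝ] M →ₗ[ℝ] M => f v w) e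

theorem J_Rt_left {m i : ℕ} (h : i + 1 < 2 * m) (u : ℝ) (v w : M) :
    J m (Rt i u v) w = Rt (i + 2) u (J m v w) := by
  rw [Rt_apply, Rt_apply, map_add, map_smul, map_smul, LinearMap.add_apply, LinearMap.smul_apply,
    LinearMap.smul_apply, J_E_left h]

theorem J_Rt_right (m i : ℕ) (u : ℝ) (v w : M) :
    J m v (Rt i u w) = Rt (i + (2 * m + 2)) u (J m v w) := by
  rw [Rt_apply, Rt_apply, map_add, map_smul, map_smul, J_E_right]

theorem tot_J (m : ℕ) (v w : M) : tot (J m v w) = tot v * tot w := by
  have e : (LinearMap.llcomp ℝ M M ℝ tot) ∘ₗ (J m) = (LinearMap.mul ℝ ℝ).compl₁₂ tot tot := by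
    apply bil_ext
    intro σ τ
    simp [J_single_single]
  exact congrArg (fun f : M →ₗ[ℝ] M →ₗ[ℝ] ℝ => f v w) e

/-- the wall of the lower leg may be shifted -/
theorem gl_wall {m : ℕ} {σ : St} (hσ : σ ∈ W m) (τ : St) :
    gl (m + 1) (ins (2 * m + 1) σ) τ = gl (m + 1) σ τ := by
  congr 1
  rw [ins_odd]
  apply Setoid.ext
  intro x y
  rw [comap_apply]
  have h : ∀ x, σ (unskip (m + 1) x) x := by
    intro x
    unfold unskip
    split_ifs with h
    · exact σ.refl x
    · exact hσ _ _ (by omega) (by omega)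
  exact ⟨fun h' => σ.trans (σ.symm (h x)) (σ.trans h' (h y)), fun h' => σ.trans (h x) (σ.trans h' (σ.symm (h y)))⟩

theorem In_wall {m : ℕ} {v : M} (hv : v ∈ Sup (W m)) : In (2 * m + 1) v = v := by
  unfold Sup at hv
  rw [Finsupp.mem_supported] at hv
  have : In (2 * m + 1) v = v.sum fun σ c => In (2 * m + 1) (Finsupp.single σ c) := by
    conv_lhs => rw [← Finsupp.sum_single v]
    rw [Finsupp.sum, map_sum]
    rfl
  rw [this]
  conv_rhs => rw [← Finsupp.sum_single v]
  refine Finsupp.sum_congr fun σ hσ => ?_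
  rw [In_single]
  congr 1
  rw [ins_odd]
  have hσ' : σ ∈ W m := hv hσ
  apply Setoid.ext
  intro x y
  rw [comap_apply]
  have h : ∀ x, σ (unskip (m + 1) x) x := by
    intro x
    unfold unskip
    split_ifs with h
    · exact σ.refl x
    · exact hσ' _ _ (by omega) (by omega)
  exact ⟨fun h' => σ.trans (σ.symm (h x)) (σ.trans h' (h y)), fun h' => σ.trans (h x) (σ.trans h' (σ.symm (h y)))⟩

end LD
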