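import Pool.Agent.Helper78.LD.Push
import Pool.Agent.Helper78.LD.Stat
import Pool.Agent.Helper78.K.Pairs

/-!
L-SHAPED CORRIDOR, part [D]: exchange relations and symmetry in the pairs.
-/

namespace LD
open IP Finset Real

noncomputable section

/-- `(De a)^m` -/
def cl (a : ℕ) : ℕ → M →ₗ[ℝ] M
  | 0 => LinearMap.id
  | m + 1 => cl a m ∘ₗ De a

/-- `r` rows cross `n` columns -/
def RA (n : ℕ) (b β : ℕ → ℝ) : ℕ → M →ₗ[ℝ] M
  | 0 => LinearMap.id
  | r + 1 => row (2 + r) (fun j => b j - β r) n ∘ₗ RA n b β r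

/-- the closings -/
def Om (m k : ℕ) : M →ₗ[ℝ] M := caps m ∘ₗ cl 2 k

/-- the vector before the closings -/
def Bv (m k : ℕ) (b β : ℕ → ℝ) : M := RA (2 * m) b β (2 * k + 1) (J m (V m b) (V k β))

end

theorem cl_zero (a : ℕ) (v : M) : cl a 0 v = v := rfl
theorem cl_succ (a m : ℕ) (v : M) : cl a (m + 1) v = cl a m (De a v) := rfl

theorem caps_eq_cl (m : ℕ) (v : M) : caps m v = cl 3 m v := by
  induction m generalizing v with
  | zero => rfl
  | succ m ih => rw [caps_succ, cl_succ, ih]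

theorem cl_De (a m : ℕ) (v : M) : De a (cl a m v) = cl a m (De a v) := by
  induction m generalizing v with
  | zero => rfl
  | succ m ih => rw [cl_succ, cl_succ, ih]

theorem cl_succ_left (a m : ℕ) (v : M) : cl a (m + 1) v = De a (cl a m v) := by rw [cl_succ, cl_De]

theorem cl_succ' (a m : ℕ) (v : M) : cl a (m + 1) v = cl a m (De (2 * m + a) v) := by
  induction m generalizing v with
  | zero => rw [cl_succ, Nat.mul_zero, Nat.zero_add]
  | succ m ih =>
    rw [cl_succ, ih, cl_succ a m, show 2 * (m + 1) + a = (2 * m + a) + 2 by ring,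
      De_De (i := a) (j := 2 * m + a) (by omega)]

theorem cl_Rt {a m j : ℕ} (h : j < m) (u : ℝ) (v : M) : cl a m (Rt (2 * j + a) u v) = s u • cl a m v := by
  induction m generalizing j v with
  | zero => omega
  | succ m ih =>
    rw [cl_succ, cl_succ]
    rcases j with _ | j
    · rw [Nat.mul_zero, Nat.zero_add, Rt_apply, map_add, map_smul, map_smul, De_E, ← add_smul, map_smul]
      congr 1
      linarith [s_zero_sub u]
    · rw [show 2 * (j + 1) + a = (2 * j + a) + 2 by ring, De_Rt_gt (by omega), ih (by omega)]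

theorem cl_E {a m j : ℕ} (h : j < m) (v : M) : cl a m (E (2 * j + a) v) = cl a m v := by
  induction m generalizing j v with
  | zero => omega
  | succ m ih =>
    rw [cl_succ, cl_succ]
    rcases j with _ | j
    · rw [Nat.mul_zero, Nat.zero_add, De_E]
    · rw [show 2 * (j + 1) + a = (2 * j + a) + 2 by ring, De_E_gt (by omega), ih (by omega)]

theorem cl_Rt_gt (a m : ℕ) {j : ℕ} (h : a ≤ j) (u : ℝ) (v : M) :
    cl a m (Rt (j + 2 * m) u v) = Rt j u (cl a m v) := by
  induction m generalizing v with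
  | zero => rfl
  | succ m ih =>
    rw [cl_succ, cl_succ, show j + 2 * (m + 1) = (j + 2 * m) + 2 by ring, De_Rt_gt (by omega), ih]

theorem cl_E_gt (a m : ℕ) {j : ℕ} (h : a ≤ j) (v : M) :
    cl a m (E (j + 2 * m) v) = E j (cl a m v) := by
  induction m generalizing v with
  | zero => rfl
  | succ m ih =>
    rw [cl_succ, cl_succ, show j + 2 * (m + 1) = (j + 2 * m) + 2 by ring, De_E_gt (by omega), ih]

theorem cl_row_gt (a m : ℕ) {off : ℕ} (h : a ≤ off) (b : ℕ → ℝ) (n : ℕ) (v : M) :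
    cl a m (row (off + 2 * m) b n v) = row off b n (cl a m v) := by
  induction m generalizing v with
  | zero => rfl
  | succ m ih =>
    rw [cl_succ, cl_succ, show off + 2 * (m + 1) = (off + 2 * m) + 2 by ring, De_row_gt _ _ _ (by omega), ih]

theorem RA_zero (n : ℕ) (b β : ℕ → ℝ) (v : M) : RA n b β 0 v = v := rfl
theorem RA_succ (n : ℕ) (b β : ℕ → ℝ) (r : ℕ) (v : M) :
    RA n b β (r + 1) v = row (2 + r) (fun j => b j - β r) n (RA n b β r v) := rfl

theorem rows_eq (n : ℕ) (b β : ℕ → ℝ) (k : ℕ) (v : M) : rows n b β k v = cl 2 k (RA n b β (2 * k) v) := by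
  induction k with
  | zero => rfl
  | succ k ih =>
    rw [rows_succ, ih, DR_apply, ← cl_row_gt 2 k (le_refl 2), ← cl_row_gt 2 k (by omega : 2 ≤ 3),
      cl_succ_left, show 2 * (k + 1) = 2 * k + 1 + 1 by ring, RA_succ, RA_succ,
      show 2 + (2 * k + 1) = 3 + 2 * k by ring]

theorem Rc_eq (m k : ℕ) (b β : ℕ → ℝ) (v : M) : Rc m k b β v = Om m k (RA (2 * m) b β (2 * k + 1) v) := by
  show caps m (row 2 (fun j => b j - β (2 * k)) (2 * m) (rows (2 * m) b β k v)) = caps m (cl 2 k _)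
  rw [rows_eq, ← cl_row_gt 2 k (le_refl 2), RA_succ]

theorem Lv_eq (m k : ℕ) (b β : ℕ → ℝ) : Lv m k b β = Om m k (Bv m k b β) := Rc_eq m k b β _

theorem Om_E_row {m k i : ℕ} (h : i < k) (v : M) : Om m k (E (2 + 2 * i) v) = Om m k v := by
  show caps m (cl 2 k (E (2 + 2 * i) v)) = caps m (cl 2 k v)
  rw [show 2 + 2 * i = 2 * i + 2 by ring, cl_E h]

theorem Om_E_col {m k j : ℕ} (h : j < m) (v : M) : Om m k (E (2 * k + 3 + 2 * j) v) = Om m k v := by
  show caps m (cl 2 k (E (2 * k + 3 + 2 * j) v)) = caps m (cl 2 k v)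
  rw [show 2 * k + 3 + 2 * j = 2 * j + 3 + 2 * k by ring, cl_E_gt 2 k (by omega), caps_E h]

theorem Om_Rt_row {m k i : ℕ} (h : i < k) (u : ℝ) (v : M) : Om m k (Rt (2 + 2 * i) u v) = s u • Om m k v := by
  rw [Rt_apply, map_add, map_smul, map_smul, Om_E_row h, ← add_smul]
  congr 1
  linarith [s_zero_sub u]

theorem Om_Rt_col {m k j : ℕ} (h : j < m) (u : ℝ) (v : M) :
    Om m k (Rt (2 * k + 3 + 2 * j) u v) = s u • Om m k v := by
  rw [Rt_apply, map_add, map_smul, map_smul, Om_E_col h, ← add_smul]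
  congr 1
  linarith [s_zero_sub u]

/-! ### exchange -/

theorem RA_col (n i : ℕ) (h : i + 2 ≤ n) (b β : ℕ → ℝ) (r : ℕ) (v : M) :
    RA n (sw i b) β r (Rt (2 + i) (b i - b (i + 1)) v) = Rt (2 + r + i) (b i - b (i + 1)) (RA n b β r v) := by
  induction r generalizing v with
  | zero => rfl
  | succ r ih =>
    rw [RA_succ, RA_succ, ih, row_col (2 + r) n i h, show 2 + r + i + 1 = 2 + (r + 1) + i by ring]

theorem RA_Rt_right (n : ℕ) (b β : ℕ → ℝ) (r : ℕ) {j : ℕ} (h : 2 + n + r ≤ j) (u : ℝ) (v : M) :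
    RA n b β r (Rt j u v) = Rt j u (RA n b β r v) := by
  induction r generalizing v with
  | zero => rfl
  | succ r ih =>
    rw [RA_succ, RA_succ, ih (by omega), Rt_row_right _ _ _ (by omega)]

theorem RA_congr (n : ℕ) {b b' β β' : ℕ → ℝ} (r : ℕ) (h : ∀ j < n, b j = b' j) (h' : ∀ j < r, β j = β' j) :
    RA n b β r = RA n b' β' r := by
  induction r with
  | zero => rfl
  | succ r ih =>
    show row (2 + r) (fun j => b j - β r) n ∘ₗ RA n b β r = row (2 + r) (fun j => b' j - β' r) n ∘ₗ RA n b' β' r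
    rw [ih (fun j hj => h' j (by omega)), h' r (by omega),
      row_congr (2 + r) n (b := fun j => b j - β' r) (b' := fun j => b' j - β' r) (fun j hj => by simp only [h j hj])]

theorem RA_row (n i : ℕ) (b β : ℕ → ℝ) (r : ℕ) (h : i + 2 ≤ r) (v : M) :
    RA n b (sw i β) r (Rt (2 + n + i) (β i - β (i + 1)) v) = Rt (2 + i) (β i - β (i + 1)) (RA n b β r v) := by
  obtain ⟨d, rfl⟩ : ∃ d, r = i + 2 + d := ⟨r - (i + 2), by omega⟩
  induction d with
  | zero =>
    rw [show i + 2 + 0 = i + 1 + 1 by ring, RA_succ, RA_succ, RA_succ, RA_succ, RA_Rt_right n _ _ i (by omega),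
      sw_left, sw_right, RA_congr n i (β := sw i β) (β' := β) (fun j _ => rfl)
        (fun j hj => sw_of_ne β (by omega) (by omega))]
    have h1 := row_row (2 + i) n b (β i) (β (i + 1)) (RA n b β i v)
    rw [show 2 + i + n = 2 + n + i by ring] at h1
    exact h1
  | succ d ih =>
    rw [show i + 2 + (d + 1) = i + 2 + d + 1 by ring, RA_succ, RA_succ, ih (by omega),
      sw_of_ne β (by omega) (by omega), Rt_row_left _ _ _ (by omega)]

theorem Bv_swC {m i : ℕ} (k : ℕ) (h : i + 1 < 2 * m) (b β : ℕ → ℝ) :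
    s (b i - b (i + 1)) • Bv m k (sw i b) β = Rt (2 * k + 3 + i) (b i - b (i + 1)) (Bv m k b β) := by
  unfold Bv
  rw [← map_smul, ← LinearMap.smul_apply, ← map_smul, V_sw (by omega), J_Rt_left h,
    show i + 2 = 2 + i by ring, RA_col (2 * m) i (by omega), show 2 + (2 * k + 1) + i = 2 * k + 3 + i by ring]

theorem Bv_swR {k i : ℕ} (m : ℕ) (h : i + 1 < 2 * k + 1) (b β : ℕ → ℝ) :
    s (β i - β (i + 1)) • Bv m k b (sw i β) = Rt (2 + i) (β i - β (i + 1)) (Bv m k b β) := by
  unfold Bv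
  rw [← map_smul, ← map_smul, V_sw (by omega), J_Rt_right,
    show i + (2 * m + 2) = 2 + 2 * m + i by ring, RA_row (2 * m) i b β (2 * k + 1) (by omega)]

/-- exchange inside a pair -/
theorem g_sw {X : (ℕ → ℝ) → M} {off N : ℕ}
    (hX : ∀ b i, i + 1 < N → s (b i - b (i + 1)) • X (sw i b) = Rt (off + i) (b i - b (i + 1)) (X b))
    {f : M →ₗ[ℝ] M} {i : ℕ} (hi : i + 1 < N) (hf : ∀ v, f (E (off + i) v) = f v) (b : ℕ → ℝ)
    (hs : s (b i - b (i + 1)) ≠ 0) : f (X (sw i b)) = f (X b) := by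
  have h := congrArg f (hX b i hi)
  rw [map_smul, Rt_apply, map_add, map_smul, map_smul, hf, ← add_smul] at h
  have h2 := s_zero_sub (b i - b (i + 1))
  have h3 : s (-(b i - b (i + 1))) + Real.sin (b i - b (i + 1)) = s (b i - b (i + 1)) := by
    rw [← h2]; ring
  rw [h3] at h
  exact smul_right_injective _ hs h

/-- exchange of two neighbouring pairs -/
theorem g_pair {X : (ℕ → ℝ) → M} {off N : ℕ}
    (hX : ∀ b i, i + 1 < N → s (b i - b (i + 1)) • X (sw i b) = Rt (off + i) (b i - b (i + 1)) (X b))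
    {f : M →ₗ[ℝ] M} {i : ℕ} (hi : i + 3 < N) (hf : ∀ v, f (E (off + i) v) = f v)
    (hf2 : ∀ v, f (E (off + i + 2) v) = f v) (b : ℕ → ℝ) (h1 : b i = -b (i + 1)) (h2 : b (i + 2) = -b (i + 3))
    (hs : s (b (i + 1) - b (i + 3)) * s (b (i + 3) - b (i + 1)) * s (b (i + 1) + b (i + 3)) *
      s (-(b (i + 1) + b (i + 3))) ≠ 0) :
    f (X (fun j => b ((Equiv.swap i (i + 2) * Equiv.swap (i + 1) (i + 3)) j))) = f (X b) := by
  have e0 : (sw (i + 1) (sw (i + 2) (sw i (sw (i + 1) b)))) =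
      fun j => b ((Equiv.swap i (i + 2) * Equiv.swap (i + 1) (i + 3)) j) := by
    funext j
    exact congrArg b (IPK.pairs_perm i j)
  rw [← e0]
  set x := b (i + 1) with hx
  set y := b (i + 3) with hy
  have v1 := hX b (i + 1) (by omega)
  have v2 := hX (sw (i + 1) b) i (by omega)
  have v3 := hX (sw i (sw (i + 1) b)) (i + 2) (by omega)
  have v4 := hX (sw (i + 2) (sw i (sw (i + 1) b))) (i + 1) (by omega)
  have a1 : b (i + 1) - b (i + 1 + 1) = x + y := by
    rw [show i + 1 + 1 = i + 2 by omega, h2]; ring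
  have a2 : sw (i + 1) b i - sw (i + 1) b (i + 1) = -(x - y) := by
    show b (Equiv.swap (i + 1) (i + 1 + 1) i) - b (Equiv.swap (i + 1) (i + 1 + 1) (i + 1)) = _
    rw [Equiv.swap_apply_of_ne_of_ne (by omega) (by omega), Equiv.swap_apply_left,
      show i + 1 + 1 = i + 2 by omega, h1, h2]; ring
  have a3 : sw i (sw (i + 1) b) (i + 2) - sw i (sw (i + 1) b) (i + 2 + 1) = x - y := by
    show b (Equiv.swap (i + 1) (i + 1 + 1) (Equiv.swap i (i + 1) (i + 2))) -
      b (Equiv.swap (i + 1) (i + 1 + 1) (Equiv.swap i (i + 1) (i + 2 + 1))) = _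
    rw [Equiv.swap_apply_of_ne_of_ne (x := i + 2) (by omega) (by omega),
      Equiv.swap_apply_of_ne_of_ne (x := i + 2 + 1) (a := i) (by omega) (by omega),
      show i + 1 + 1 = i + 2 by omega, Equiv.swap_apply_right,
      Equiv.swap_apply_of_ne_of_ne (by omega) (by omega)]
  have a4 : sw (i + 2) (sw i (sw (i + 1) b)) (i + 1) - sw (i + 2) (sw i (sw (i + 1) b)) (i + 1 + 1) = -(x + y) := by
    show b (Equiv.swap (i + 1) (i + 1 + 1) (Equiv.swap i (i + 1) (Equiv.swap (i + 2) (i + 2 + 1) (i + 1)))) -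
      b (Equiv.swap (i + 1) (i + 1 + 1) (Equiv.swap i (i + 1) (Equiv.swap (i + 2) (i + 2 + 1) (i + 1 + 1)))) = _
    rw [Equiv.swap_apply_of_ne_of_ne (x := i + 1) (a := i + 2) (by omega) (by omega), Equiv.swap_apply_right,
      show i + 1 + 1 = i + 2 by omega,
      Equiv.swap_apply_left, Equiv.swap_apply_of_ne_of_ne (x := i) (by omega) (by omega),
      Equiv.swap_apply_of_ne_of_ne (x := i + 2 + 1) (a := i) (by omega) (by omega),
      Equiv.swap_apply_of_ne_of_ne (x := i + 2 + 1) (by omega) (by omega), h1]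
    have hy' : b (i + 2 + 1) = y := rfl
    rw [hy']
    ring
  rw [a1] at v1
  rw [a2] at v2
  rw [a3] at v3
  rw [a4] at v4
  rw [show off + (i + 1) = off + i + 1 by ring] at v1 v4
  rw [show off + (i + 2) = off + i + 2 by ring] at v3
  set V0 := X b
  set V1 := X (sw (i + 1) b)
  set V2 := X (sw i (sw (i + 1) b))
  set V3 := X (sw (i + 2) (sw i (sw (i + 1) b)))
  set V4 := X (sw (i + 1) (sw (i + 2) (sw i (sw (i + 1) b)))) with hV4
  have key : (s (x + y) * s (-(x - y)) * s (x - y) * s (-(x + y))) • V4 =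
      Rt (off + i + 1) (-(x + y)) (Rt (off + i) (-(x - y)) (Rt (off + i + 2) (x - y) (Rt (off + i + 1) (x + y) V0))) := by
    rw [← v1, map_smul, map_smul, map_smul, Rt_comm (le_refl (off + i + 2)), ← v2, map_smul, map_smul, ← v3, map_smul,
      ← v4, smul_smul, smul_smul, smul_smul]
  have key2 : f (Rt (off + i + 1) (-(x + y)) (Rt (off + i) (-(x - y)) (Rt (off + i + 2) (x - y)
      (Rt (off + i + 1) (x + y) V0)))) =
      (s (x - y) * s (-(x - y)) * (s (x + y) * s (-(x + y)))) • f V0 := by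
    rw [← hf2, ← hf, IPK.four, map_smul, hf, hf2]
  rw [← key, map_smul] at key2
  have h5 : s (x + y) * s (-(x - y)) * s (x - y) * s (-(x + y)) ≠ 0 := by
    intro h
    apply hs
    rw [show y - x = -(x - y) by ring]
    linear_combination h
  apply smul_right_injective _ h5
  simp only
  rw [key2]
  congr 1
  ring

end LD
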