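import Pool.Agent.Helper78.LD.Sym
import Pool.Agent.Helper78.K.Node

/-!
L-SHAPED CORRIDOR, part [D]: total mass, symmetry, polynomiality.
-/

namespace LD
open IP Finset Real

theorem V_congr' (n : ℕ) {b b' : ℕ → ℝ} (h : ∀ j < 2 * n + 1, b j = b' j) : V n b = V n b' := by
  ext σ
  exact (V_Sep n σ).2 b b' h

theorem ap1_lt {n j : ℕ} (h : j < n) (b : ℕ → ℝ) (p : ℝ) : ap1 n b p j = b j := by
  unfold ap1; rw [if_pos h]

theorem ap1_self (n : ℕ) (b : ℕ → ℝ) (p : ℝ) : ap1 n b p n = p := by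
  unfold ap1; rw [if_neg (lt_irrefl n)]

theorem ap1_self' {n j : ℕ} (h : n ≤ j) (b : ℕ → ℝ) (p : ℝ) : ap1 n b p j = p := by
  unfold ap1; rw [if_neg (by omega)]

/-- `Lv` depends on finitely many parameters only -/
theorem Lv_congr (m k : ℕ) {b b' β β' : ℕ → ℝ} (h : ∀ j < 2 * m + 1, b j = b' j)
    (h' : ∀ j < 2 * k + 1, β j = β' j) : Lv m k b β = Lv m k b' β' := by
  rw [Lv_eq, Lv_eq]
  unfold Bv
  rw [RA_congr (2 * m) (2 * k + 1) (fun j hj => h j (by omega)) h', V_congr' m h, V_congr' k h']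

/-! ### total mass -/

theorem tot_cl (a m : ℕ) (v : M) : tot (cl a m v) = tot v := by
  induction m generalizing v with
  | zero => rfl
  | succ m ih => rw [cl_succ, ih, tot_De]

theorem tot_caps (m : ℕ) (v : M) : tot (caps m v) = tot v := by
  rw [caps_eq_cl, tot_cl]

theorem tot_RA (n : ℕ) (b β : ℕ → ℝ) (r : ℕ) (v : M) :
    tot (RA n b β r v) = (∏ i ∈ range r, ∏ j ∈ range n, s (b j - β i + π / 6)) * tot v := by
  induction r with
  | zero => simp [RA_zero]
  | succ r ih =>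
    rw [RA_succ, tot_row, ih, prod_range_succ]
    ring

theorem stTot : StTot := by
  intro m k b β
  rw [Lv_eq]
  show tot (caps m (cl 2 k (Bv m k b β))) = _
  rw [tot_caps, tot_cl]
  unfold Bv
  rw [tot_RA, tot_J, prod_comm]
  unfold Z
  ring

/-! ### pairs -/

theorem pi_val (i j : ℕ) : (Equiv.swap (2 * i) (2 * i + 2) * Equiv.swap (2 * i + 1) (2 * i + 3)) j =
    if j = 2 * i then 2 * i + 2 else if j = 2 * i + 2 then 2 * i else if j = 2 * i + 1 then 2 * i + 3 else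
      if j = 2 * i + 3 then 2 * i + 1 else j := by
  rw [Equiv.Perm.mul_apply, Equiv.swap_apply_def, Equiv.swap_apply_def]
  split_ifs <;> omega

theorem pr_even (t : ℕ → ℝ) (j : ℕ) : pr t (2 * j) = -t j := by
  unfold pr
  rw [if_pos (by omega), show 2 * j / 2 = j by omega]

theorem pr_odd (t : ℕ → ℝ) (j : ℕ) : pr t (2 * j + 1) = t j := by
  unfold pr
  rw [if_neg (by omega), show (2 * j + 1) / 2 = j by omega]

theorem pr_swap {n i : ℕ} (h : 2 * i + 3 < n) (t : ℕ → ℝ) (v : ℝ) : ap1 n (pr (sw i t)) v = fun j => ap1 n (pr t) v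
    ((Equiv.swap (2 * i) (2 * i + 2) * Equiv.swap (2 * i + 1) (2 * i + 3)) j) := by
  funext j
  rw [pi_val]
  split_ifs with h1 h2 h3 h4
  · subst h1
    rw [ap1_lt (by omega), ap1_lt (by omega), pr_even, sw_left, show 2 * i + 2 = 2 * (i + 1) by ring, pr_even]
  · subst h2
    rw [ap1_lt (by omega), ap1_lt (by omega), pr_even, show 2 * i + 2 = 2 * (i + 1) by ring, pr_even, sw_right]
  · subst h3
    rw [ap1_lt (by omega), ap1_lt (by omega), pr_odd, sw_left, show 2 * i + 3 = 2 * (i + 1) + 1 by ring, pr_odd]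
  · subst h4
    rw [ap1_lt (by omega), ap1_lt (by omega), pr_odd, show 2 * i + 3 = 2 * (i + 1) + 1 by ring, pr_odd, sw_right]
  · unfold ap1
    split_ifs with h5
    · obtain ⟨c, rfl | rfl⟩ := parity j
      · rw [pr_even, pr_even, sw_of_ne t (by omega) (by omega)]
      · rw [pr_odd, pr_odd, sw_of_ne t (by omega) (by omega)]
    · rfl

theorem pr_ng {n i : ℕ} (h : 2 * i + 1 < n) (t : ℕ → ℝ) (v : ℝ) :
    ap1 n (pr (ng i t)) v = sw (2 * i) (ap1 n (pr t) v) := by
  funext j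
  by_cases h1 : j = 2 * i
  · subst h1
    rw [sw_left, ap1_lt (by omega), ap1_lt (by omega), pr_even, pr_odd, ng_self, neg_neg]
  · by_cases h2 : j = 2 * i + 1
    · subst h2
      rw [sw_right, ap1_lt (by omega), ap1_lt (by omega), pr_even, pr_odd, ng_self]
    · rw [sw_of_ne _ h1 h2]
      unfold ap1
      split_ifs with h5
      · obtain ⟨c, rfl | rfl⟩ := parity j
        · rw [pr_even, pr_even, ng_of_ne (by omega)]
        · rw [pr_odd, pr_odd, ng_of_ne (by omega)]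
      · rfl

theorem stPairC : StPairC := by
  intro m k i t v β hi h1 h2 h3 h4
  rw [Lv_eq, Lv_eq, pr_swap (by omega)]
  refine g_pair (X := fun b => Bv m k b β) (off := 2 * k + 3) (N := 2 * m) (fun b i hi => Bv_swC k hi b β)
    (f := Om m k) (i := 2 * i) (by omega) (fun v => Om_E_col (by omega) v) (fun v => ?_) _ ?_ ?_ ?_
  · rw [show 2 * k + 3 + 2 * i + 2 = 2 * k + 3 + 2 * (i + 1) by ring]
    exact Om_E_col hi v
  · rw [ap1_lt (by omega), ap1_lt (by omega), pr_even, pr_odd]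
  · rw [ap1_lt (by omega), ap1_lt (by omega), show 2 * i + 2 = 2 * (i + 1) by ring,
      show 2 * i + 3 = 2 * (i + 1) + 1 by ring, pr_even, pr_odd]
  · rw [ap1_lt (by omega), ap1_lt (by omega), show 2 * i + 3 = 2 * (i + 1) + 1 by ring, pr_odd, pr_odd]
    rw [show -(t i + t (i + 1)) = -t i - t (i + 1) by ring]
    exact mul_ne_zero (mul_ne_zero (mul_ne_zero h1 h3) h4) h2

theorem stPairR : StPairR := by
  intro m k i b u a hi h1 h2 h3 h4
  rw [Lv_eq, Lv_eq, pr_swap (by omega)]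
  refine g_pair (X := fun β => Bv m k b β) (off := 2) (N := 2 * k + 1) (fun β i hi => Bv_swR m hi b β)
    (f := Om m k) (i := 2 * i) (by omega) (fun v => Om_E_row (by omega) v) (fun v => ?_) _ ?_ ?_ ?_
  · rw [show 2 + 2 * i + 2 = 2 + 2 * (i + 1) by ring]
    exact Om_E_row hi v
  · rw [ap1_lt (by omega), ap1_lt (by omega), pr_even, pr_odd]
  · rw [ap1_lt (by omega), ap1_lt (by omega), show 2 * i + 2 = 2 * (i + 1) by ring,
      show 2 * i + 3 = 2 * (i + 1) + 1 by ring, pr_even, pr_odd]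
  · rw [ap1_lt (by omega), ap1_lt (by omega), show 2 * i + 3 = 2 * (i + 1) + 1 by ring, pr_odd, pr_odd]
    rw [show -(u i + u (i + 1)) = -u i - u (i + 1) by ring]
    exact mul_ne_zero (mul_ne_zero (mul_ne_zero h1 h3) h4) h2

theorem stSgnC : StSgnC := by
  intro m k i t v β hi h1 h2
  rw [Lv_eq, Lv_eq, pr_ng (by omega)]
  refine g_sw (X := fun b => Bv m k b β) (off := 2 * k + 3) (N := 2 * m) (fun b i hi => Bv_swC k hi b β)
    (f := Om m k) (i := 2 * i) (by omega) (fun v => Om_E_col hi v) _ ?_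
  rw [ap1_lt (by omega), ap1_lt (by omega), pr_even, pr_odd, show -t i - t i = -(2 * t i) by ring]
  exact h2

theorem stSgnR : StSgnR := by
  intro m k i b u a hi h1 h2
  rw [Lv_eq, Lv_eq, pr_ng (by omega)]
  refine g_sw (X := fun β => Bv m k b β) (off := 2) (N := 2 * k + 1) (fun β i hi => Bv_swR m hi b β)
    (f := Om m k) (i := 2 * i) (by omega) (fun v => Om_E_row hi v) _ ?_
  rw [ap1_lt (by omega), ap1_lt (by omega), pr_even, pr_odd, show -u i - u i = -(2 * u i) by ring]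
  exact h2

/-! ### evenness in the last column -/

theorem ng_ap1 (n : ℕ) (b : ℕ → ℝ) (v : ℝ) : ∀ j < n + 1, ap1 n b (-v) j = ng n (ap1 n b v) j := by
  intro j hj
  by_cases h : j = n
  · subst h
    rw [ap1_self, ng_self, ap1_self]
  · rw [ap1_lt (by omega), ng_of_ne h, ap1_lt (by omega)]

theorem V_ap1_neg (n : ℕ) (b : ℕ → ℝ) (v : ℝ) : V n (ap1 (2 * n) b (-v)) = V n (ap1 (2 * n) b v) := by
  rw [V_congr' n (ng_ap1 (2 * n) b v), V_ngR]

theorem Rc_congr (m k : ℕ) {b b' β β' : ℕ → ℝ} (h : ∀ j < 2 * m, b j = b' j)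
    (h' : ∀ j < 2 * k + 1, β j = β' j) (v : M) : Rc m k b β v = Rc m k b' β' v := by
  rw [Rc_eq, Rc_eq, RA_congr (2 * m) (2 * k + 1) h h']

theorem Lv_neg_v (m k : ℕ) (b β : ℕ → ℝ) (v : ℝ) :
    Lv m k (ap1 (2 * m) b (-v)) β = Lv m k (ap1 (2 * m) b v) β := by
  unfold Lv
  rw [V_ap1_neg, Rc_congr m k (b := ap1 (2 * m) b (-v)) (b' := ap1 (2 * m) b v) (β := β) (β' := β)
    (fun j hj => by rw [ap1_lt hj, ap1_lt hj]) (fun j _ => rfl)]

/-! ### evenness in the last row -/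

theorem De_succ_E' (i : ℕ) (v : M) : De (i + 1) (E i (E (i + 1) v)) = De (i + 1) v := by
  rw [De_succ_E, De_E_succ]

theorem cap_even (i : ℕ) (x y : ℝ) (v : M) :
    De (i + 1) (Rt i (x + π / 6) (Rt (i + 1) (y + π / 6) v)) =
      De (i + 1) (Rt i (-y + π / 6) (Rt (i + 1) (-x + π / 6) v)) := by
  have e : ∀ z : ℝ, s (-(z + π / 6)) = Real.sin (-z + π / 6) := s_neg_add_pi_div_six
  simp only [Rt_apply, map_add, map_smul, smul_add, smul_smul, De_E, De_succ_E, De_E_succ, e, neg_neg]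
  module

theorem cl_row_even {i : ℕ} (b : ℕ → ℝ) (a : ℝ) (m : ℕ) (hb : ∀ j < m, b (2 * j) = -b (2 * j + 1)) (v : M) :
    cl (i + 1) m (row i (fun j => b j - a) (2 * m) v) = cl (i + 1) m (row i (fun j => b j - -a) (2 * m) v) := by
  induction m generalizing v with
  | zero => rfl
  | succ m ih =>
    rw [show 2 * (m + 1) = 2 * m + 1 + 1 by ring, row_succ, row_succ, row_succ i (fun j => b j - -a), row_succ,
      cl_succ', cl_succ', De_row_lt _ _ _ (by omega), De_row_lt _ _ _ (by omega), ih (fun j hj => hb j (by omega))]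
    congr 2
    have h1 := hb m (by omega)
    have h2 := cap_even (i + 2 * m) (b (2 * m) - a) (b (2 * m + 1) - a) v
    rw [show -(b (2 * m + 1) - a) = b (2 * m) - -a by rw [h1]; ring,
      show -(b (2 * m) - a) = b (2 * m + 1) - -a by rw [h1]; ring] at h2
    rw [show 2 * m + (i + 1) = i + 2 * m + 1 by ring, show i + (2 * m + 1) = i + 2 * m + 1 by ring]
    exact h2

theorem Lv_ap1_a (m k : ℕ) (b β : ℕ → ℝ) (a : ℝ) : Lv m k b (ap1 (2 * k) β a) =
    caps m (row 2 (fun j => b j - a) (2 * m) (rows (2 * m) b β k (J m (V m b) (V k (ap1 (2 * k) β a))))) := by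
  show caps m (row 2 (fun j => b j - ap1 (2 * k) β a (2 * k)) (2 * m)
    (rows (2 * m) b (ap1 (2 * k) β a) k (J m (V m b) (V k (ap1 (2 * k) β a))))) = _
  rw [ap1_self, rows_congr (2 * m) (b := b) (b' := b) k (fun j _ => rfl) (fun j hj => ap1_lt hj β a)]

theorem Lv_neg_a (m k : ℕ) (b β : ℕ → ℝ) (a : ℝ) (hb : ∀ j < m, b (2 * j) = -b (2 * j + 1)) :
    Lv m k b (ap1 (2 * k) β (-a)) = Lv m k b (ap1 (2 * k) β a) := by
  rw [Lv_ap1_a, Lv_ap1_a, V_ap1_neg, caps_eq_cl, caps_eq_cl]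
  exact (cl_row_even b a m hb _).symm

/-! ### polynomiality -/

theorem TP_V_ap1 (n : ℕ) (b : ℕ → ℝ) (g : M →ₗ[ℝ] ℝ) : TP (2 * n) (fun x => g (V n (ap1 (2 * n) b x))) := by
  have h := (vs_Sep_lin n g).1 b (2 * n) (by omega)
  refine h.tb_congr (fun x => ?_)
  congr 1
  apply V_congr'
  intro j hj
  by_cases h : j = 2 * n
  · subst h
    rw [ap1_self, Function.update_self]
  · rw [ap1_lt (by omega), Function.update_of_ne h]

theorem stPolyV : StPolyV := by
  intro m k b β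
  have h1 := TP_V_ap1 m b (cr ∘ₗ Rc m k b β ∘ₗ (J m).flip (V k β))
  have h2 : ∀ x, FF m k (ap1 (2 * m) b x) β =
      (cr ∘ₗ Rc m k b β ∘ₗ (J m).flip (V k β)) (V m (ap1 (2 * m) b x)) := by
    intro x
    show cr (Rc m k (ap1 (2 * m) b x) β (J m (V m (ap1 (2 * m) b x)) (V k β))) = _
    rw [Rc_congr m k (b := ap1 (2 * m) b x) (b' := b) (β := β) (β' := β) (fun j hj => ap1_lt hj b x)
      (fun j _ => rfl)]
    rfl
  obtain ⟨Q, hQ, hQ'⟩ := IPK.poly_of_tp (h1.tb_congr h2) (fun y => by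
    unfold FF
    rw [Lv_neg_v])
  exact ⟨Q, hQ, fun v => hQ' v⟩

theorem TP_row {d : ℕ} (off : ℕ) (b : ℕ → ℝ) (n : ℕ) {w : ℝ → M} (hw : ∀ g : M →ₗ[ℝ] ℝ, TP d (fun x => g (w x))) :
    ∀ g : M →ₗ[ℝ] ℝ, TP (n + d) (fun x => g (row off (fun j => b j - x) n (w x))) := by
  induction n generalizing d w with
  | zero =>
    intro g
    rw [Nat.zero_add]
    exact hw g
  | succ n ih =>
    intro g
    have h1 : ∀ g : M →ₗ[ℝ] ℝ, TP (1 + d) (fun x => g (Rt (off + n) (b n - x + π / 6) (w x))) := by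
      intro g
      have t1 : TP 1 (fun x => s (-(b n - x + π / 6))) :=
        (TP.s_add (-(b n) - π / 6)).tb_congr (fun x => by congr 1; ring)
      have t2 : TP 1 (fun x => Real.sin (b n - x + π / 6)) :=
        (TP.sin_sub (b n + π / 6)).tb_congr (fun x => by congr 1; ring)
      have h2 := (t1.mul (hw g)).add (t2.mul (hw (g ∘ₗ E (off + n))))
      refine h2.tb_congr (fun x => ?_)
      rw [Rt_apply, map_add, map_smul, map_smul]
      rfl
    have h3 := ih h1 g
    rw [show n + 1 + d = n + (1 + d) by ring]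
    exact h3

theorem stPolyA : StPolyA := by
  intro m k t v β
  set b := ap1 (2 * m) (pr t) v with hb
  have hpair : ∀ j < m, b (2 * j) = -b (2 * j + 1) := by
    intro j hj
    rw [hb, ap1_lt (by omega), ap1_lt (by omega), pr_even, pr_odd]
  have h1 : ∀ g : M →ₗ[ℝ] ℝ, TP (2 * k) (fun x => g (rows (2 * m) b β k (J m (V m b) (V k (ap1 (2 * k) β x))))) := by
    intro g
    exact TP_V_ap1 k β (g ∘ₗ rows (2 * m) b β k ∘ₗ J m (V m b))
  have h2 := TP_row 2 b (2 * m) h1 (cr ∘ₗ caps m)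
  have h3 : TP (2 * (m + k)) (fun x => FF m k b (ap1 (2 * k) β x)) := by
    rw [show 2 * (m + k) = 2 * m + 2 * k by ring]
    refine h2.tb_congr (fun x => ?_)
    unfold FF
    rw [Lv_ap1_a]
    rfl
  obtain ⟨Q, hQ, hQ'⟩ := IPK.poly_of_tp h3 (fun y => by
    unfold FF
    rw [Lv_neg_a m k b β y hpair])
  refine ⟨Q.comp (-Polynomial.X), ?_, fun a => ?_⟩
  · refine Polynomial.natDegree_comp_le.trans ?_
    rw [Polynomial.natDegree_neg, Polynomial.natDegree_X, mul_one]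
    exact hQ
  · rw [hQ', Polynomial.eval_comp, Polynomial.eval_neg, Polynomial.eval_X, neg_neg]
    rfl

end LD
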