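import Pool.Agent.Helper78.LD.Glue

/-!
L-SHAPED CORRIDOR, part [D]: relations between `In` and `De` at distance.
-/

namespace LD
open IP Finset

theorem insS_iff (k : ℕ) (σ : St) (x y : ℕ) :
    (insS k σ) x y ↔ (x = y ∨ (x ≠ k ∧ y ≠ k ∧ σ (unskip k x) (unskip k y))) := Iff.rfl

theorem ins_even' (k : ℕ) (σ : St) : ins (2 * k) σ = insS k σ := by
  unfold ins
  rw [if_pos (by omega), Nat.mul_div_cancel_left k (by norm_num)]

theorem unskip_unskip {a b x : ℕ} (h : a ≤ b) (_h1 : x ≠ a) (_h2 : x ≠ b + 1) :
    unskip a (unskip (b + 1) x) = unskip b (unskip a x) := by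
  unfold unskip
  split_ifs <;> omega

theorem unskip_inj {k x y : ℕ} (h1 : x ≠ k) (h2 : y ≠ k) (h : unskip k x = unskip k y) : x = y := by
  unfold unskip at h
  split_ifs at h <;> omega

theorem ins_ins_ee {a b : ℕ} (h : a ≤ b) (σ : St) : insS (b + 1) (insS a σ) = insS a (insS b σ) := by
  apply Setoid.ext
  intro x y
  rw [insS_iff, insS_iff, insS_iff, insS_iff]
  by_cases hxy : x = y
  · simp [hxy]
  · have key : ∀ z, z ≠ b + 1 → (unskip (b + 1) z ≠ a ↔ z ≠ a) := by
      intro z hz
      unfold unskip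
      split_ifs <;> omega
    have key2 : ∀ z, z ≠ a → (unskip a z ≠ b ↔ z ≠ b + 1) := by
      intro z hz
      unfold unskip
      split_ifs <;> omega
    constructor
    · rintro (h' | ⟨h1, h2, h' | ⟨h3, h4, h5⟩⟩)
      · exact Or.inl h'
      · exact absurd (unskip_inj h1 h2 h') hxy
      · have h3' := (key x h1).1 h3
        have h4' := (key y h2).1 h4
        refine Or.inr ⟨h3', h4', Or.inr ⟨(key2 x h3').2 h1, (key2 y h4').2 h2, ?_⟩⟩
        rwa [unskip_unskip h h3' h1, unskip_unskip h h4' h2] at h5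
    · rintro (h' | ⟨h1, h2, h' | ⟨h3, h4, h5⟩⟩)
      · exact Or.inl h'
      · exact absurd (unskip_inj h1 h2 h') hxy
      · have h3' := (key2 x h1).1 h3
        have h4' := (key2 y h2).1 h4
        refine Or.inr ⟨h3', h4', Or.inr ⟨(key x h3').2 h1, (key y h4').2 h2, ?_⟩⟩
        rwa [unskip_unskip h h1 h3', unskip_unskip h h2 h4']

theorem ins_ins {i j : ℕ} (h : i ≤ j) (σ : St) : ins (j + 2) (ins i σ) = ins i (ins j σ) := by
  obtain ⟨a, rfl | rfl⟩ := parity i <;> obtain ⟨b, rfl | rfl⟩ := parity j
  · rw [even_add_two, ins_even', ins_even', ins_even', ins_even']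
    exact ins_ins_ee (by omega) σ
  · rw [IP.odd_add_two, ins_even', ins_even', ins_odd, ins_odd]
    apply Setoid.ext
    intro x y
    rw [comap_apply, insS_iff, insS_iff]
    have hab : a ≤ b := by omega
    have key : ∀ z, unskip (b + 1 + 1) z ≠ a ↔ z ≠ a := by
      intro z
      unfold unskip
      split_ifs <;> omega
    have key2 : ∀ z, z ≠ a → unskip a (unskip (b + 1 + 1) z) = unskip (b + 1) (unskip a z) := by
      intro z hz
      unfold unskip
      split_ifs <;> omega
    rw [key, key]
    constructor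
    · rintro (h' | ⟨h1, h2, h3⟩)
      · by_cases hxy : x = y
        · exact Or.inl hxy
        · right
          have : (x = b + 1 ∨ x = b + 2) ∧ (y = b + 1 ∨ y = b + 2) := by
            unfold unskip at h'
            split_ifs at h' <;> omega
          refine ⟨by omega, by omega, ?_⟩
          show σ (unskip (b + 1) (unskip a x)) (unskip (b + 1) (unskip a y))
          rw [← key2 x (by omega), ← key2 y (by omega), h']
      · refine Or.inr ⟨h1, h2, ?_⟩
        show σ (unskip (b + 1) (unskip a x)) (unskip (b + 1) (unskip a y))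
        rwa [← key2 x h1, ← key2 y h2]
    · rintro (h' | ⟨h1, h2, h3⟩)
      · exact Or.inl (by rw [h'])
      · refine Or.inr ⟨h1, h2, ?_⟩
        have h4 : σ (unskip (b + 1) (unskip a x)) (unskip (b + 1) (unskip a y)) := h3
        rwa [key2 x h1, key2 y h2]
  · rw [IP.even_add_two, ins_even', ins_odd, ins_even', ins_odd]
    apply Setoid.ext
    intro x y
    show (x = y ∨ (x ≠ b + 1 ∧ y ≠ b + 1 ∧ σ (unskip (a + 1) (unskip (b + 1) x)) (unskip (a + 1) (unskip (b + 1) y)))) ↔
      (unskip (a + 1) x = unskip (a + 1) y ∨ (unskip (a + 1) x ≠ b ∧ unskip (a + 1) y ≠ b ∧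
        σ (unskip b (unskip (a + 1) x)) (unskip b (unskip (a + 1) y))))
    have hab : a + 1 ≤ b := by omega
    have key : ∀ z, unskip (a + 1) z ≠ b ↔ z ≠ b + 1 := by
      intro z
      unfold unskip
      split_ifs <;> omega
    have key2 : ∀ z, z ≠ b + 1 → unskip (a + 1) (unskip (b + 1) z) = unskip b (unskip (a + 1) z) := by
      intro z hz
      unfold unskip
      split_ifs <;> omega
    rw [key, key]
    constructor
    · rintro (h' | ⟨h1, h2, h3⟩)
      · exact Or.inl (by rw [h'])
      · exact Or.inr ⟨h1, h2, by rwa [← key2 x h1, ← key2 y h2]⟩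
    · rintro (h' | ⟨h1, h2, h3⟩)
      · by_cases hxy : x = y
        · exact Or.inl hxy
        · right
          have : (x = a ∨ x = a + 1) ∧ (y = a ∨ y = a + 1) := by
            unfold unskip at h'
            split_ifs at h' <;> omega
          refine ⟨by omega, by omega, ?_⟩
          rw [key2 x (by omega), key2 y (by omega), h']
      · exact Or.inr ⟨h1, h2, by rwa [key2 x h1, key2 y h2]⟩
  · rw [IP.odd_add_two, ins_odd, ins_odd, ins_odd, ins_odd]
    apply Setoid.ext
    intro x y
    have key2 : ∀ z, unskip (a + 1) (unskip (b + 1 + 1) z) = unskip (b + 1) (unskip (a + 1) z) := by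
      intro z
      unfold unskip
      split_ifs <;> omega
    show σ (unskip (a + 1) (unskip (b + 1 + 1) x)) (unskip (a + 1) (unskip (b + 1 + 1) y)) ↔
      σ (unskip (b + 1) (unskip (a + 1) x)) (unskip (b + 1) (unskip (a + 1) y))
    rw [key2, key2]

theorem In_In {i j : ℕ} (h : i ≤ j) (v : M) : In (j + 2) (In i v) = In i (In j v) := by
  induction v using Finsupp.induction_linear with
  | zero => simp
  | add a b ha hb => simp only [map_add, ha, hb]
  | single σ c => simp [ins_ins h]

theorem In_injective (i : ℕ) : Function.Injective (In i) :=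
  Function.LeftInverse.injective (g := De i) (De_In i)

theorem De_succ_In (i : ℕ) (v : M) : De (i + 1) (In i v) = v := by
  rw [← De_E, E_succ_In, De_In]

theorem De_In_succ (i : ℕ) (v : M) : De i (In (i + 1) v) = v := by
  rw [← De_E, E_In_succ, De_In]

theorem De_In_gt {i j : ℕ} (h : i ≤ j) (v : M) : De (j + 2) (In i v) = In i (De j v) := by
  apply In_injective (j + 2)
  rw [In_De, E_In_gt h, In_In h, In_De]

theorem De_In_lt {i j : ℕ} (h : i ≤ j) (v : M) : De i (In (j + 2) v) = In j (De i v) := by
  apply In_injective i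
  rw [In_De, E_In_lt (by omega), ← In_In h, In_De]

theorem De_De {i j : ℕ} (h : i ≤ j) (v : M) : De i (De (j + 2) v) = De j (De i v) := by
  have h1 : De i (De (j + 2) v) = De i (De (j + 2) (E i v)) := by
    rw [De_E_lt (by omega : i + 2 ≤ j + 2), De_E]
  rw [h1, ← In_De, De_In_gt h, De_In]

end LD
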