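import Pool.Agent.Lead.IP.Recur

/-!
L-SHAPED CORRIDOR, part [D] (geometric amplitude): definitions.  Namespace `LD`.
Framework: `Pool/Agent/Lead/IP` (states = partitions of the sites, `V n b` = polynomial stationary vector, `2n+1` strands).

`gl m s t` glues a state `s` of the lower leg (sites `0, ..., m-1`, wall `m`) and a state `t` of the right leg:
site `0` = wall of `s`, sites `1, ..., m` = the sites of `s`, sites `m+1+j` = site `j` of `t`.
Strand `0` is the end at the inner corner (the last strand of the lower leg), strand `1` is the end of the lower leg at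
infinity, strands `2, ..., 2m+1` are the columns, strands `2m+2, ...` are the rows of the right leg.

`Lv m k b β` : the vector of the corridor (`2m` columns with parameters `b 0, ..., b (2m-1)`, last strand `b (2m)` of the
lower leg; `2k+1` rows with parameters `β 0, ..., β (2k)`).  The rows cross the columns from the bottom to the top,
the rows `2i`, `2i+1` are joined at the left wall, the columns `2j`, `2j+1` are joined at the top wall.
`FF m k b β` : the part of the total mass where site 0 (the wall of the lower leg) is joined to the wall (top wall).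
-/

namespace LD
open IP Finset

/-- the gluing of two states -/
def gl (m : ℕ) (σ τ : St) : St where
  r x y := (x ≤ m ∧ y ≤ m ∧ σ (if x = 0 then m else x - 1) (if y = 0 then m else y - 1)) ∨
    (m < x ∧ m < y ∧ τ (x - (m + 1)) (y - (m + 1)))
  iseqv := by
    refine ⟨?_, ?_, ?_⟩
    · intro x
      by_cases h : x ≤ m
      · exact Or.inl ⟨h, h, σ.refl _⟩
      · exact Or.inr ⟨by omega, by omega, τ.refl _⟩
    · rintro x y (⟨h1, h2, h3⟩ | ⟨h1, h2, h3⟩)
      · exact Or.inl ⟨h2, h1, σ.symm h3⟩
      · exact Or.inr ⟨h2, h1, τ.symm h3⟩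
    · rintro x y z (⟨h1, h2, h3⟩ | ⟨h1, h2, h3⟩) (⟨h4, h5, h6⟩ | ⟨h4, h5, h6⟩)
      · exact Or.inl ⟨h1, h5, σ.trans h3 h6⟩
      · omega
      · omega
      · exact Or.inr ⟨h1, h5, τ.trans h3 h6⟩

noncomputable section

/-- the gluing of two vectors -/
def J (m : ℕ) : M →ₗ[ℝ] M →ₗ[ℝ] M :=
  Finsupp.lsum ℝ fun σ => LinearMap.toSpanSingleton ℝ (M →ₗ[ℝ] M) (Finsupp.lmapDomain ℝ ℝ (gl m σ))

/-- two rows with parameters `p` (lower), `q` (upper), joined at the left wall, crossing `n` columns -/
def DR (n : ℕ) (b : ℕ → ℝ) (p q : ℝ) : M →ₗ[ℝ] M :=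
  De 2 ∘ₗ row 3 (fun j => b j - q) n ∘ₗ row 2 (fun j => b j - p) n

/-- the first `2k` rows, crossing `n` columns -/
def rows (n : ℕ) (b β : ℕ → ℝ) : ℕ → M →ₗ[ℝ] M
  | 0 => LinearMap.id
  | k + 1 => DR n b (β (2 * k)) (β (2 * k + 1)) ∘ₗ rows n b β k

/-- the caps at the top wall -/
def caps : ℕ → M →ₗ[ℝ] M
  | 0 => LinearMap.id
  | m + 1 => caps m ∘ₗ De 3

/-- the operator of the corner rectangle -/
def Rc (m k : ℕ) (b β : ℕ → ℝ) : M →ₗ[ℝ] M :=
  caps m ∘ₗ row 2 (fun j => b j - β (2 * k)) (2 * m) ∘ₗ rows (2 * m) b β k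

/-- the vector of the L-shaped corridor -/
def Lv (m k : ℕ) (b β : ℕ → ℝ) : M := Rc m k b β (J m (V m b) (V k β))

/-- the dual corridor: `2m+1` columns (column `0` leaves at the outer corner), the row `0` of the right leg is joined
to the last strand of the lower leg, the rows `1, ..., 2k` cross the columns -/
def Lw (m k : ℕ) (c β : ℕ → ℝ) : M :=
  caps m (rows (2 * m + 1) c (fun r => β (r + 1)) k (De (2 * m + 3) (J (m + 1) (V m c) (V k β))))

open Classical in
/-- the total mass of the states where the sites 0 and 1 are joined -/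
def cr : M →ₗ[ℝ] ℝ := Finsupp.lsum ℝ (fun σ : St => if σ 0 1 then LinearMap.id else 0)

/-- the crossing amplitude -/
def FF (m k : ℕ) (b β : ℕ → ℝ) : ℝ := cr (Lv m k b β)

/-- the first `n` entries of `b`, then `p` -/
def ap1 (n : ℕ) (b : ℕ → ℝ) (p : ℝ) : ℕ → ℝ := fun j => if j < n then b j else p

/-- the first `n` entries of `b`, then `p, q, r` -/
def ap3 (n : ℕ) (b : ℕ → ℝ) (p q r : ℝ) : ℕ → ℝ := fun j =>
  if j < n then b j else if j = n then p else if j = n + 1 then q else r

/-- `x` in front of `b` -/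
def cons (x : ℝ) (b : ℕ → ℝ) : ℕ → ℝ := fun j => if j = 0 then x else b (j - 1)

/-- the pairs `-t 0, t 0, -t 1, t 1, ...` -/
def pr (t : ℕ → ℝ) : ℕ → ℝ := fun j => if j % 2 = 0 then - t (j / 2) else t (j / 2)

/-- the crossing amplitude for `m` pairs of columns `t`, last strand `v`, `k` pairs of rows `u`, last row `a` -/
def GG (m k : ℕ) (t : ℕ → ℝ) (v : ℝ) (u : ℕ → ℝ) (a : ℝ) : ℝ :=
  FF m k (ap1 (2 * m) (pr t) v) (ap1 (2 * k) (pr u) a)

end

/-! ### gluing -/

theorem J_single (m : ℕ) (σ : St) (x : ℝ) (w : M) :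
    J m (Finsupp.single σ x) w = x • Finsupp.lmapDomain ℝ ℝ (gl m σ) w := by
  unfold J
  rw [Finsupp.lsum_single]
  rfl

theorem J_single_single (m : ℕ) (σ τ : St) (x y : ℝ) :
    J m (Finsupp.single σ x) (Finsupp.single τ y) = Finsupp.single (gl m σ τ) (x * y) := by
  rw [J_single, Finsupp.lmapDomain_apply, Finsupp.mapDomain_single, Finsupp.smul_single, smul_eq_mul]

theorem M_ind {p : M → Prop} (v : M) (h0 : p 0) (ha : ∀ v w, p v → p w → p (v + w))
    (hs : ∀ σ x, p (Finsupp.single σ x)) : p v := by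
  induction v using Finsupp.induction_linear with
  | zero => exact h0
  | add v w hv hw => exact ha v w hv hw
  | single σ c => exact hs σ c

end LD
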